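import Pool.Agent.Helper25.PCap.GoalsA
import Pool.Agent.Helper25.PCap.GoalsF

/-!
MP_576c25_an, packet A11c: first differing mode, the pointwise inequality.
-/

set_option autoImplicit false

open MeasureTheory Set Filter Topology
open scoped ContDiff Real

noncomputable section

namespace Pool.Agent.Helper31.PCap

open Pool.Agent.Helper25.PCap

/-! ### tails of the expansions -/

theorem tail_bound {κ : ℝ} (hmono : StrictMono (aa κ)) {w g : ℕ → ℝ} {τ₁ τ W s : ℝ} {M : ℕ}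
    (hW : HasSum (fun n => w n * Real.exp (aa κ n * τ₁)) W) (hg : ∀ n, |g n| ≤ w n)
    (h0 : ∀ n < M, g n = 0) (hτ : τ ≤ τ₁)
    (hs : HasSum (fun n => g n * Real.exp (aa κ n * τ)) s) :
    |s - g M * Real.exp (aa κ M * τ)| ≤ Real.exp (aa κ (M + 1) * (τ - τ₁)) * W := by
  have h1 := hs.sub (hasSum_ite_eq M (g M * Real.exp (aa κ M * τ)))
  have h2 := hW.mul_left (Real.exp (aa κ (M + 1) * (τ - τ₁)))
  have h3 := h1.norm_le_of_bounded h2 ?_
  · simpa [Real.norm_eq_abs] using h3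
  · intro n
    have hw : 0 ≤ w n := (abs_nonneg _).trans (hg n)
    rcases lt_trichotomy n M with hn | hn | hn
    · simp only [h0 n hn, if_neg hn.ne, zero_mul, sub_zero, norm_zero]
      positivity
    · subst hn
      simp only [if_true, sub_self, norm_zero]
      positivity
    · rw [if_neg hn.ne', sub_zero, Real.norm_eq_abs, abs_mul, Real.abs_exp]
      have h4 : Real.exp (aa κ n * τ) ≤
          Real.exp (aa κ (M + 1) * (τ - τ₁)) * Real.exp (aa κ n * τ₁) := by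
        rw [← Real.exp_add]
        apply Real.exp_le_exp.2
        have h5 : aa κ (M + 1) ≤ aa κ n := hmono.monotone hn
        nlinarith
      calc |g n| * Real.exp (aa κ n * τ) ≤ w n *
            (Real.exp (aa κ (M + 1) * (τ - τ₁)) * Real.exp (aa κ n * τ₁)) :=
            mul_le_mul (hg n) h4 (Real.exp_pos _).le hw
        _ = _ := by ring

/-- the leading term of an expansion, with coefficients depending on `τ` -/
theorem tail_lim0 {κ : ℝ} (hmono : StrictMono (aa κ)) {w : ℕ → ℝ} {τ₁ : ℝ}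
    (hw : Summable (fun n => w n * Real.exp (aa κ n * τ₁))) {g : ℝ → ℕ → ℝ} {s : ℝ → ℝ} {M : ℕ}
    (hg : ∀ᶠ τ in atBot, (∀ n, |g τ n| ≤ w n) ∧ (∀ n < M, g τ n = 0) ∧
      HasSum (fun n => g τ n * Real.exp (aa κ n * τ)) (s τ)) :
    Tendsto (fun τ => s τ * Real.exp (-(aa κ M * τ)) - g τ M) atBot (𝓝 0) := by
  obtain ⟨W, hW⟩ := hw
  have hlim : Tendsto (fun τ => Real.exp ((aa κ (M + 1) - aa κ M) * τ) *
      (Real.exp (-(aa κ (M + 1) * τ₁)) * W)) atBot (𝓝 0) := by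
    have hpos : 0 < aa κ (M + 1) - aa κ M := sub_pos.2 (hmono (Nat.lt_succ_self M))
    have h1 : Tendsto (fun τ => Real.exp ((aa κ (M + 1) - aa κ M) * τ)) atBot (𝓝 0) :=
      Real.tendsto_exp_atBot.comp (tendsto_id.const_mul_atBot hpos)
    simpa using h1.mul_const (Real.exp (-(aa κ (M + 1) * τ₁)) * W)
  refine squeeze_zero_norm' ?_ hlim
  filter_upwards [hg, eventually_le_atBot τ₁] with τ h hτ
  obtain ⟨h1, h2, h3⟩ := h
  have hb := tail_bound hmono hW h1 h2 hτ h3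
  have he : s τ * Real.exp (-(aa κ M * τ)) - g τ M =
      (s τ - g τ M * Real.exp (aa κ M * τ)) * Real.exp (-(aa κ M * τ)) := by
    rw [sub_mul, mul_assoc, ← Real.exp_add]
    simp
  rw [he, Real.norm_eq_abs, abs_mul, Real.abs_exp]
  calc |s τ - g τ M * Real.exp (aa κ M * τ)| * Real.exp (-(aa κ M * τ)) ≤
      (Real.exp (aa κ (M + 1) * (τ - τ₁)) * W) * Real.exp (-(aa κ M * τ)) :=
        mul_le_mul_of_nonneg_right hb (Real.exp_pos _).le
    _ = _ := by
      rw [show Real.exp ((aa κ (M + 1) - aa κ M) * τ) * (Real.exp (-(aa κ (M + 1) * τ₁)) * W) =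
        (Real.exp ((aa κ (M + 1) - aa κ M) * τ) * Real.exp (-(aa κ (M + 1) * τ₁))) * W by ring,
        show Real.exp (aa κ (M + 1) * (τ - τ₁)) * W * Real.exp (-(aa κ M * τ)) =
        (Real.exp (aa κ (M + 1) * (τ - τ₁)) * Real.exp (-(aa κ M * τ))) * W by ring,
        ← Real.exp_add, ← Real.exp_add]
      congr 2
      ring

theorem tail_lim {κ : ℝ} (hmono : StrictMono (aa κ)) {w : ℕ → ℝ} {τ₁ : ℝ}
    (hw : Summable (fun n => w n * Real.exp (aa κ n * τ₁))) {g : ℝ → ℕ → ℝ} {s : ℝ → ℝ} {M : ℕ}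
    {v : ℝ}
    (hg : ∀ᶠ τ in atBot, (∀ n, |g τ n| ≤ w n) ∧ (∀ n < M, g τ n = 0) ∧
      HasSum (fun n => g τ n * Real.exp (aa κ n * τ)) (s τ))
    (hv : Tendsto (fun τ => g τ M) atBot (𝓝 v)) :
    Tendsto (fun τ => s τ * Real.exp (-(aa κ M * τ))) atBot (𝓝 v) := by
  have h := (tail_lim0 hmono hw hg).add hv
  simpa using h

/-! ### modes -/

theorem norm_md (c : ℕ → ℂ) (n : ℕ) (θ : ℝ) : ‖md c n θ‖ = ‖c n‖ := by
  rw [md, norm_mul, Complex.norm_exp_ofReal_mul_I, mul_one]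

theorem md_re_real (c : ℕ → ℝ) (n : ℕ) (θ : ℝ) :
    (md (fun n => (c n : ℂ)) n θ).re = c n * Real.cos (n * θ) := by
  rw [md, Complex.re_ofReal_mul, Complex.exp_ofReal_mul_I_re]

theorem md_im_real (c : ℕ → ℝ) (n : ℕ) (θ : ℝ) :
    (md (fun n => (c n : ℂ)) n θ).im = c n * Real.sin (n * θ) := by
  rw [md, Complex.im_ofReal_mul, Complex.exp_ofReal_mul_I_im]

theorem FExp.mono {κ C0 : ℝ} (hmono : StrictMono (aa κ)) (ha0 : 0 ≤ aa κ 0)
    {u om : ℝ × ℝ → ℝ} {c : ℕ → ℂ} {τ₁ τ₂ : ℝ}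
    (h : FExp κ C0 u om c τ₁) (h2 : τ₂ ≤ τ₁) : FExp κ C0 u om c τ₂ := by
  obtain ⟨h1, h3, h4, h5⟩ := h
  refine ⟨?_, h3, h4, fun τ θ hτ => h5 τ θ (hτ.trans h2)⟩
  refine Summable.of_nonneg_of_le (fun n => by positivity) (fun n => ?_) h1
  have : 0 ≤ aa κ n := ha0.trans (hmono.monotone (Nat.zero_le n))
  gcongr

theorem hasSum_of_eq {f g : ℕ → ℝ} {a b : ℝ} (h : HasSum f a) (hf : ∀ n, f n = g n)
    (ha : a = b) : HasSum g b := by
  subst ha
  have : f = g := funext hf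
  subst this
  exact h

/-! ### the core estimate -/

theorem hasDerivAt_snd {f : ℝ × ℝ → ℝ} {τ θ : ℝ} (h : DifferentiableAt ℝ f (τ, θ)) :
    HasDerivAt (fun x => f (τ, x)) (D2 f (τ, θ)) θ := by
  have h1 : HasDerivAt (fun x : ℝ => (τ, x)) ((0 : ℝ), (1 : ℝ)) θ :=
    (hasDerivAt_const θ τ).prodMk (hasDerivAt_id θ)
  exact h.hasFDerivAt.comp_hasDerivAt θ h1

/-- mean value theorem in unordered form -/
theorem mvt {f f' : ℝ → ℝ} (hf : ∀ x, HasDerivAt f (f' x) x) (a b : ℝ) :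
    ∃ ξ ∈ uIcc a b, f b - f a = f' ξ * (b - a) := by
  rcases lt_trichotomy a b with h | h | h
  · obtain ⟨c, hc, h1⟩ := exists_hasDerivAt_eq_slope f f' h
      (fun x _ => (hf x).continuousAt.continuousWithinAt) (fun x _ => hf x)
    refine ⟨c, by rw [uIcc_of_le h.le]; exact ⟨hc.1.le, hc.2.le⟩, ?_⟩
    rw [h1]
    field_simp [sub_ne_zero.2 h.ne']
  · subst h
    exact ⟨a, by simp, by simp⟩
  · obtain ⟨c, hc, h1⟩ := exists_hasDerivAt_eq_slope f f' h
      (fun x _ => (hf x).continuousAt.continuousWithinAt) (fun x _ => hf x)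
    refine ⟨c, by rw [uIcc_of_ge h.le]; exact ⟨hc.1.le, hc.2.le⟩, ?_⟩
    rw [h1]
    field_simp [sub_ne_zero.2 h.ne']
    ring

theorem core {κ C0 : ℝ} (hκ : 0 < κ) (hκ1 : κ < 1) (hC : 0 < C0) (hmono : StrictMono (aa κ))
    (ha0 : aa κ 0 = 1 - κ) (hale : ∀ n : ℕ, aa κ n ≤ n + 1)
    {U O u om : ℝ × ℝ → ℝ} {c' : ℕ → ℝ} {cT : ℕ → ℂ} {τ₁ : ℝ} {m : ℕ} (hm : 3 ≤ m)
    (hU : FExp κ C0 U O (fun n => (c' n : ℂ)) τ₁) (hu : FExp κ C0 u om cT τ₁)
    (hsys : Sys κ C0 U O {z | z.1 < τ₁}) (hc2 : 0 < c' 2) (heq : ∀ n < m, cT n = (c' n : ℂ))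
    {θ φ σ : ℝ} (hφ0 : 0 < φ) (hφ1 : φ < π / 2) (hσ : σ ^ 2 = 1)
    (hUθ : ∀ τ < τ₁, U (τ, θ) = U (τ, φ)) (hOθ : ∀ τ < τ₁, O (τ, θ) = σ * O (τ, φ))
    (hcos : Real.cos (2 * θ) = Real.cos (2 * φ)) (hsin : Real.sin (2 * θ) = σ * Real.sin (2 * φ))
    (hex : ∀ᶠ τ in atBot, ∃ ϑ : ℝ, 0 ≤ ϑ ∧ ϑ ≤ π / 2 ∧ U (τ, ϑ) = u (τ, θ) ∧
      |om (τ, θ)| ≤ O (τ, ϑ)) :
    ((cT m - (c' m : ℂ)) * Complex.exp (((m : ℝ) * θ : ℝ) * Complex.I)).re *
        Real.cos (2 * θ) +
      (aa κ m / m) / (aa κ 2 / 2) *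
        ((cT m - (c' m : ℂ)) * Complex.exp (((m : ℝ) * θ : ℝ) * Complex.I)).im *
        Real.sin (2 * θ) ≤ 0 := by
  obtain ⟨hUs, hU0, hU1, hUx⟩ := hU
  have hc0 : c' 0 = 0 := Complex.ofReal_eq_zero.1 hU0
  have hc1 : c' 1 = 0 := Complex.ofReal_eq_zero.1 hU1
  obtain ⟨hus, hu0, hu1, hux⟩ := hu
  have hopen : IsOpen {z : ℝ × ℝ | z.1 < τ₁} := isOpen_lt continuous_fst continuous_const
  have hdU : ∀ τ x : ℝ, τ < τ₁ → DifferentiableAt ℝ U (τ, x) := fun τ x h =>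
    (hsys.1.contDiffAt (hopen.mem_nhds h)).differentiableAt (by simp)
  have hdO : ∀ τ x : ℝ, τ < τ₁ → DifferentiableAt ℝ O (τ, x) := fun τ x h =>
    (hsys.2.1.contDiffAt (hopen.mem_nhds h)).differentiableAt (by simp)
  have hapos : ∀ n, 0 < aa κ n := fun n => by
    have : aa κ 0 ≤ aa κ n := hmono.monotone (Nat.zero_le n)
    linarith
  have hBpos : 0 < BB κ C0 := by
    unfold BB
    have : 0 < 1 - κ := by linarith
    positivity
  have hBC : BB κ C0 * ((1 - κ) * C0) = 1 := by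
    unfold BB
    have : 0 < 1 - κ := by linarith
    field_simp
  have hbb : ∀ n τ, Real.exp (bb κ n * τ) * Real.exp ((1 - κ) * τ) = Real.exp (aa κ n * τ) := by
    intro n τ
    rw [← Real.exp_add]
    congr 1
    unfold bb
    ring
  -- the weight
  set w : ℕ → ℝ := fun n => (1 + BB κ C0) * (((n : ℝ) + 1) ^ 3 * (‖cT n‖ + ‖(c' n : ℂ)‖)) with hw
  have hwsum : Summable (fun n => w n * Real.exp (aa κ n * τ₁)) := by
    have h := (hus.add hUs).mul_left (1 + BB κ C0)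
    refine h.congr fun n => ?_
    simp only [hw]
    ring
  have hwA : ∀ (n : ℕ) (x y : ℝ), 0 ≤ y → y ≤ (1 + BB κ C0) * ((n : ℝ) + 1) ^ 3 →
      |x| ≤ y * (‖cT n‖ + ‖(c' n : ℂ)‖) → |x| ≤ w n := by
    intro n x y hy hy1 hx
    refine hx.trans ?_
    simp only [hw]
    rw [← mul_assoc]
    exact mul_le_mul_of_nonneg_right hy1 (by positivity)
  have hn1 : ∀ n : ℕ, (1 : ℝ) ≤ (n : ℝ) + 1 := fun n => by
    have : (0 : ℝ) ≤ n := Nat.cast_nonneg n
    linarith
  have hn3 : ∀ n : ℕ, (n : ℝ) + 1 ≤ ((n : ℝ) + 1) ^ 3 := fun n =>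
    le_self_pow₀ (hn1 n) (by norm_num)
  have hy1 : ∀ n : ℕ, (n : ℝ) + 1 ≤ (1 + BB κ C0) * ((n : ℝ) + 1) ^ 3 := fun n => by
    nlinarith [hn3 n, hn1 n, mul_nonneg hBpos.le (le_trans zero_le_one ((hn1 n).trans (hn3 n)))]
  have hyB : ∀ n : ℕ, BB κ C0 * ((n : ℝ) + 1) ≤ (1 + BB κ C0) * ((n : ℝ) + 1) ^ 3 := fun n => by
    have := mul_le_mul_of_nonneg_left (hn3 n) hBpos.le
    nlinarith [hn3 n, hn1 n]
  have hmdT : ∀ n, |(md cT n θ).re| ≤ ‖cT n‖ ∧ |(md cT n θ).im| ≤ ‖cT n‖ := fun n =>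
    ⟨(Complex.abs_re_le_norm _).trans (norm_md _ _ _).le,
      (Complex.abs_im_le_norm _).trans (norm_md _ _ _).le⟩
  have hmdU : ∀ n x, |(md (fun n => (c' n : ℂ)) n x).re| ≤ ‖(c' n : ℂ)‖ ∧
      |(md (fun n => (c' n : ℂ)) n x).im| ≤ ‖(c' n : ℂ)‖ := fun n x =>
    ⟨(Complex.abs_re_le_norm _).trans (norm_md _ _ _).le,
      (Complex.abs_im_le_norm _).trans (norm_md _ _ _).le⟩
  have hdivn : ∀ n : ℕ, |aa κ n / n| ≤ (n : ℝ) + 1 := by
    intro n
    rcases Nat.eq_zero_or_pos n with rfl | hn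
    · simp
    · have h1 : (1 : ℝ) ≤ n := by exact_mod_cast hn
      rw [abs_of_nonneg (div_nonneg (hapos n).le (by positivity))]
      rw [div_le_iff₀ (by positivity)]
      nlinarith [hale n]
  set v : ℂ := (cT m - (c' m : ℂ)) * Complex.exp (((m : ℝ) * θ : ℝ) * Complex.I) with hv
  have hvmd : v = md cT m θ - md (fun n => (c' n : ℂ)) m θ := by
    rw [hv, md, md]
    ring
  have hmdeq : ∀ n < m, md cT n θ = md (fun n => (c' n : ℂ)) n θ := by
    intro n hn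
    rw [md, md, heq n hn]
  -- (i)
  have lim1 : Tendsto (fun τ => (u (τ, θ) - U (τ, θ)) * Real.exp (-(aa κ m * τ))) atBot
      (𝓝 v.re) := by
    refine tail_lim hmono hwsum
      (g := fun _ n => (md cT n θ).re - (md (fun n => (c' n : ℂ)) n θ).re) ?_ ?_
    · filter_upwards [eventually_le_atBot τ₁] with τ hτ
      refine ⟨fun n => ?_, fun n hn => ?_, ?_⟩
      · refine hwA n _ 1 zero_le_one ((hn1 n).trans (hy1 n)) ?_
        refine (abs_sub _ _).trans ?_
        have := (hmdT n).1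
        have := (hmdU n θ).1
        linarith
      · rw [hmdeq n hn, sub_self]
      · have h := (hux τ θ hτ).1.sub (hUx τ θ hτ).1
        exact hasSum_of_eq h (fun n => by ring) (by ring)
    · rw [hvmd, Complex.sub_re]
      exact tendsto_const_nhds
  -- (ii)
  have lim2 : Tendsto (fun τ => (om (τ, θ) - O (τ, θ)) * Real.exp ((1 - κ) * τ) *
      Real.exp (-(aa κ m * τ))) atBot (𝓝 (BB κ C0 * (aa κ m / m) * v.im)) := by
    refine tail_lim hmono hwsum
      (g := fun _ n => BB κ C0 * (aa κ n / n) *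
        ((md cT n θ).im - (md (fun n => (c' n : ℂ)) n θ).im)) ?_ ?_
    · filter_upwards [eventually_le_atBot τ₁] with τ hτ
      refine ⟨fun n => ?_, fun n hn => ?_, ?_⟩
      · refine hwA n _ (BB κ C0 * ((n : ℝ) + 1)) (by positivity) (hyB n) ?_
        rw [abs_mul, abs_mul, abs_of_pos hBpos]
        have h1 := (hmdT n).2
        have h2 := (hmdU n θ).2
        have h3 := abs_sub (md cT n θ).im (md (fun n => (c' n : ℂ)) n θ).im
        have h4 := hdivn n
        gcongr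
        linarith
      · rw [hmdeq n hn, sub_self, mul_zero]
      · have h := ((hux τ θ hτ).2.2.2.sub (hUx τ θ hτ).2.2.2).mul_right
          (Real.exp ((1 - κ) * τ))
        refine hasSum_of_eq h (fun n => ?_) rfl
        rw [← hbb n τ]
        ring
    · rw [hvmd, Complex.sub_im]
      exact tendsto_const_nhds
  -- (iii)
  have lim3 : ∀ ξ : ℝ → ℝ, Tendsto ξ atBot (𝓝 φ) →
      Tendsto (fun τ => D2 U (τ, ξ τ) * Real.exp (-(aa κ 2 * τ))) atBot
        (𝓝 (-(2 * (c' 2 * Real.sin (2 * φ))))) := by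
    intro ξ hξ
    refine tail_lim hmono hwsum
      (g := fun τ n => -((n : ℝ) * (md (fun n => (c' n : ℂ)) n (ξ τ)).im)) ?_ ?_
    · filter_upwards [eventually_le_atBot τ₁] with τ hτ
      refine ⟨fun n => ?_, fun n hn => ?_, ?_⟩
      · refine hwA n _ ((n : ℝ) + 1) (by positivity) (hy1 n) ?_
        rw [abs_neg, abs_mul, abs_of_nonneg (Nat.cast_nonneg n)]
        have h2 := (hmdU n (ξ τ)).2
        have h1 := norm_nonneg (cT n)
        gcongr
        · linarith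
        · linarith
      · have : n = 0 ∨ n = 1 := by omega
        rcases this with rfl | rfl
        · simp
        · rw [md_im_real]
          have h1 : c' 1 = 0 := hc1
          simp [h1]
      · exact (hUx τ (ξ τ) hτ).2.2.1
    · simp only [md_im_real]
      have h1 : Tendsto (fun τ => Real.sin (((2 : ℕ) : ℝ) * ξ τ)) atBot
          (𝓝 (Real.sin (2 * φ))) := by
        have := (Real.continuous_sin.tendsto (((2 : ℕ) : ℝ) * φ)).comp (hξ.const_mul ((2 : ℕ) : ℝ))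
        simpa [Function.comp_def] using this
      have h2 := ((h1.const_mul (c' 2)).const_mul (2 : ℝ)).neg
      simpa using h2
  -- (iv)
  have hD2O : ∀ τ x, τ < τ₁ → D2 O (τ, x) * Real.exp ((1 - κ) * τ) =
      BB κ C0 * (D1 U (τ, x) - (1 - κ) * C0 * Real.exp ((1 - κ) * τ)) := by
    intro τ x hτ
    have h := hsys.2.2.1 (τ, x) hτ
    rw [h]
    have h1 : Real.exp (-(1 - κ) * τ) * Real.exp ((1 - κ) * τ) = 1 := by
      rw [← Real.exp_add, ← Real.exp_zero]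
      congr 1
      ring
    simp only
    generalize Real.exp (-(1 - κ) * τ) = e1 at h1 ⊢
    generalize Real.exp ((1 - κ) * τ) = e2 at h1 ⊢
    linear_combination BB κ C0 * D1 U (τ, x) * h1 + e2 * hBC
  have lim4 : ∀ ξ : ℝ → ℝ, Tendsto ξ atBot (𝓝 φ) →
      Tendsto (fun τ => D2 O (τ, ξ τ) * Real.exp ((1 - κ) * τ) * Real.exp (-(aa κ 2 * τ))) atBot
        (𝓝 (BB κ C0 * (aa κ 2 * (c' 2 * Real.cos (2 * φ))))) := by
    intro ξ hξ
    refine tail_lim hmono hwsum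
      (g := fun τ n => BB κ C0 * (aa κ n * (md (fun n => (c' n : ℂ)) n (ξ τ)).re)) ?_ ?_
    · filter_upwards [eventually_lt_atBot τ₁] with τ hτ
      refine ⟨fun n => ?_, fun n hn => ?_, ?_⟩
      · refine hwA n _ (BB κ C0 * ((n : ℝ) + 1)) (by positivity) (hyB n) ?_
        rw [abs_mul, abs_mul, abs_of_pos hBpos, abs_of_pos (hapos n), ← mul_assoc]
        have h2 := (hmdU n (ξ τ)).1
        have h1 := norm_nonneg (cT n)
        have h3 := hale n
        have h4 := (hapos n).le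
        gcongr
        linarith
      · have : n = 0 ∨ n = 1 := by omega
        rcases this with rfl | rfl
        · rw [md_re_real]
          have h1 : c' 0 = 0 := hc0
          simp [h1]
        · rw [md_re_real]
          have h1 : c' 1 = 0 := hc1
          simp [h1]
      · rw [hD2O τ (ξ τ) hτ]
        exact hasSum_of_eq ((hUx τ (ξ τ) hτ.le).2.1.mul_left (BB κ C0)) (fun n => by ring) rfl
    · simp only [md_re_real]
      have h1 : Tendsto (fun τ => Real.cos (((2 : ℕ) : ℝ) * ξ τ)) atBot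
          (𝓝 (Real.cos (2 * φ))) := by
        have := (Real.continuous_cos.tendsto (((2 : ℕ) : ℝ) * φ)).comp (hξ.const_mul ((2 : ℕ) : ℝ))
        simpa [Function.comp_def] using this
      exact ((h1.const_mul (c' 2)).const_mul (aa κ 2)).const_mul (BB κ C0)
  -- (v)
  have lim5 : ∀ ξ : ℝ → ℝ,
      Tendsto (fun τ => (U (τ, ξ τ) - C0 * Real.exp ((1 - κ) * τ)) * Real.exp (-(aa κ 2 * τ)) -
        c' 2 * Real.cos (2 * ξ τ)) atBot (𝓝 0) := by
    intro ξ
    have h := tail_lim0 (M := 2) hmono hwsum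
      (g := fun τ n => (md (fun n => (c' n : ℂ)) n (ξ τ)).re)
      (s := fun τ => U (τ, ξ τ) - C0 * Real.exp ((1 - κ) * τ)) ?_
    · simpa [md_re_real] using h
    · filter_upwards [eventually_le_atBot τ₁] with τ hτ
      refine ⟨fun n => ?_, fun n hn => ?_, (hUx τ (ξ τ) hτ).1⟩
      · refine hwA n _ 1 zero_le_one ((hn1 n).trans (hy1 n)) ?_
        have h2 := (hmdU n (ξ τ)).1
        have h1 := norm_nonneg (cT n)
        linarith
      · have : n = 0 ∨ n = 1 := by omega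
        rcases this with rfl | rfl
        · rw [md_re_real]
          have h1 : c' 0 = 0 := hc0
          simp [h1]
        · rw [md_re_real]
          have h1 : c' 1 = 0 := hc1
          simp [h1]
  -- (vi)
  have lim6 : Tendsto (fun τ => (u (τ, θ) - C0 * Real.exp ((1 - κ) * τ)) *
      Real.exp (-(aa κ 2 * τ))) atBot (𝓝 (c' 2 * Real.cos (2 * φ))) := by
    refine tail_lim hmono hwsum (g := fun _ n => (md cT n θ).re) ?_ ?_
    · filter_upwards [eventually_le_atBot τ₁] with τ hτ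
      refine ⟨fun n => ?_, fun n hn => ?_, (hux τ θ hτ).1⟩
      · refine hwA n _ 1 zero_le_one ((hn1 n).trans (hy1 n)) ?_
        have := (hmdT n).1
        have h1 := norm_nonneg ((c' n : ℂ))
        linarith
      · rw [hmdeq n (by omega), md_re_real]
        have : n = 0 ∨ n = 1 := by omega
        rcases this with rfl | rfl
        · have h1 : c' 0 = 0 := hc0
          simp [h1]
        · have h1 : c' 1 = 0 := hc1
          simp [h1]
    · rw [← hcos]
      have : (md cT 2 θ).re = c' 2 * Real.cos (2 * θ) := by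
        rw [hmdeq 2 (by omega), md_re_real]
        norm_num
      rw [this]
      exact tendsto_const_nhds
  -- the points
  have hex' : ∀ᶠ τ in atBot, ∃ p : ℝ × ℝ × ℝ, 0 ≤ p.1 ∧ p.1 ≤ π / 2 ∧ U (τ, p.1) = u (τ, θ) ∧
      |om (τ, θ)| ≤ O (τ, p.1) ∧ p.2.1 ∈ uIcc φ p.1 ∧ p.2.2 ∈ uIcc φ p.1 ∧
      U (τ, p.1) - U (τ, φ) = D2 U (τ, p.2.1) * (p.1 - φ) ∧
      O (τ, p.1) - O (τ, φ) = D2 O (τ, p.2.2) * (p.1 - φ) := by
    filter_upwards [hex, eventually_lt_atBot τ₁] with τ h hτ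
    obtain ⟨ϑ, h1, h2, h3, h4⟩ := h
    obtain ⟨ξ, h5, h6⟩ := mvt (f := fun x => U (τ, x)) (f' := fun x => D2 U (τ, x))
      (fun x => hasDerivAt_snd (hdU τ x hτ)) φ ϑ
    obtain ⟨ζ, h7, h8⟩ := mvt (f := fun x => O (τ, x)) (f' := fun x => D2 O (τ, x))
      (fun x => hasDerivAt_snd (hdO τ x hτ)) φ ϑ
    exact ⟨(ϑ, ξ, ζ), h1, h2, h3, h4, h5, h7, h6, h8⟩
  obtain ⟨p, hp⟩ := hex'.choice
  -- cos (2 ϑ) → cos (2 φ)
  have hc : Tendsto (fun τ => Real.cos (2 * (p τ).1)) atBot (𝓝 (Real.cos (2 * φ))) := by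
    have h1 := lim5 (fun τ => (p τ).1)
    have h2 : Tendsto (fun τ => c' 2 * Real.cos (2 * (p τ).1)) atBot
        (𝓝 (c' 2 * Real.cos (2 * φ))) := by
      have h3 := lim6.sub h1
      rw [sub_zero] at h3
      refine h3.congr' ?_
      filter_upwards [hp] with τ h
      rw [h.2.2.1]
      ring
    have h3 := h2.const_mul (c' 2)⁻¹
    have h4 : ∀ x : ℝ, (c' 2)⁻¹ * (c' 2 * x) = x := fun x => by
      rw [← mul_assoc, inv_mul_cancel₀ hc2.ne', one_mul]
    simpa only [h4] using h3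
  have hϑ : Tendsto (fun τ => (p τ).1) atBot (𝓝 φ) := by
    have h1 := (Real.continuous_arccos.tendsto _).comp hc
    rw [Real.arccos_cos (by linarith) (by linarith [Real.pi_pos])] at h1
    have h2 := h1.const_mul (1 / 2 : ℝ)
    rw [show (1 / 2 : ℝ) * (2 * φ) = φ by ring] at h2
    refine h2.congr' ?_
    filter_upwards [hp] with τ h
    simp only [Function.comp]
    rw [Real.arccos_cos (by linarith [h.1]) (by linarith [h.2.1])]
    ring
  have hsq : ∀ ξ : ℝ → ℝ, (∀ᶠ τ in atBot, ξ τ ∈ uIcc φ (p τ).1) → Tendsto ξ atBot (𝓝 φ) := by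
    intro ξ hξ
    have h1 : Tendsto (fun τ => (p τ).1 - φ) atBot (𝓝 0) := by
      simpa using hϑ.sub_const φ
    have h2 : Tendsto (fun τ => ξ τ - φ) atBot (𝓝 0) := by
      have h3 : Tendsto (fun τ => |(p τ).1 - φ|) atBot (𝓝 0) := by
        simpa using h1.abs
      refine squeeze_zero_norm' ?_ h3
      filter_upwards [hξ] with τ h
      rw [Real.norm_eq_abs]
      exact Set.abs_sub_left_of_mem_uIcc h
    simpa using h2.add_const φ
  have l3 := lim3 (fun τ => (p τ).2.1) (hsq _ (hp.mono fun τ h => h.2.2.2.2.1))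
  have l4 := lim4 (fun τ => (p τ).2.2) (hsq _ (hp.mono fun τ h => h.2.2.2.2.2.1))
  have hs2 : 0 < Real.sin (2 * φ) := Real.sin_pos_of_pos_of_lt_pi (by linarith) (by linarith)
  -- (ϑ - φ) e^{-(a_m - a_2) τ}
  have l5 : Tendsto (fun τ => ((p τ).1 - φ) * Real.exp (-((aa κ m - aa κ 2) * τ))) atBot
      (𝓝 (v.re / -(2 * (c' 2 * Real.sin (2 * φ))))) := by
    have h0 : -(2 * (c' 2 * Real.sin (2 * φ))) < 0 := by
      have := mul_pos hc2 hs2
      linarith
    have h1 := lim1.div l3 h0.ne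
    refine h1.congr' ?_
    filter_upwards [hp, l3.eventually_lt_const h0, eventually_lt_atBot τ₁] with τ h h2 hτ
    obtain ⟨-, -, h3, -, -, -, h4, -⟩ := h
    simp only [Pi.div_apply]
    rw [div_eq_iff h2.ne, hUθ τ hτ, ← h3, h4]
    have h5 : Real.exp (-((aa κ m - aa κ 2) * τ)) * Real.exp (-(aa κ 2 * τ)) =
        Real.exp (-(aa κ m * τ)) := by
      rw [← Real.exp_add]
      congr 1
      ring
    rw [← h5]
    ring
  have l6 := l4.mul l5
  -- the inequality of the second coordinates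
  have hle : ∀ᶠ τ in atBot, σ * ((om (τ, θ) - O (τ, θ)) * Real.exp ((1 - κ) * τ) *
      Real.exp (-(aa κ m * τ))) ≤
      D2 O (τ, (p τ).2.2) * Real.exp ((1 - κ) * τ) * Real.exp (-(aa κ 2 * τ)) *
        (((p τ).1 - φ) * Real.exp (-((aa κ m - aa κ 2) * τ))) := by
    filter_upwards [hp, eventually_lt_atBot τ₁] with τ h hτ
    obtain ⟨-, -, -, h1, -, -, -, h2⟩ := h
    have h5 : Real.exp (-((aa κ m - aa κ 2) * τ)) * Real.exp (-(aa κ 2 * τ)) =
        Real.exp (-(aa κ m * τ)) := by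
      rw [← Real.exp_add]
      congr 1
      ring
    have h3 : D2 O (τ, (p τ).2.2) * Real.exp ((1 - κ) * τ) * Real.exp (-(aa κ 2 * τ)) *
        (((p τ).1 - φ) * Real.exp (-((aa κ m - aa κ 2) * τ))) =
        (O (τ, (p τ).1) - O (τ, φ)) * (Real.exp ((1 - κ) * τ) * Real.exp (-(aa κ m * τ))) := by
      rw [h2, ← h5]
      ring
    rw [h3]
    have h4 : σ * ((om (τ, θ) - O (τ, θ)) * Real.exp ((1 - κ) * τ) * Real.exp (-(aa κ m * τ))) =
        (σ * om (τ, θ) - O (τ, φ)) * (Real.exp ((1 - κ) * τ) * Real.exp (-(aa κ m * τ))) := by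
      rw [hOθ τ hτ]
      linear_combination (-(O (τ, φ) * Real.exp ((1 - κ) * τ) * Real.exp (-(aa κ m * τ)))) * hσ
    rw [h4]
    apply mul_le_mul_of_nonneg_right _ (by positivity)
    have h6 : σ * om (τ, θ) ≤ |om (τ, θ)| := by
      have h7 : |σ| = 1 := by
        have h := sq_abs σ
        rw [hσ] at h
        exact (pow_eq_one_iff_of_nonneg (abs_nonneg σ) two_ne_zero).1 h
      calc σ * om (τ, θ) ≤ |σ * om (τ, θ)| := le_abs_self _
        _ = |om (τ, θ)| := by rw [abs_mul, h7, one_mul]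
    linarith
  have hfin := le_of_tendsto_of_tendsto (lim2.const_mul σ) l6 hle
  rw [hcos, hsin]
  have hR : BB κ C0 * (aa κ 2 * (c' 2 * Real.cos (2 * φ))) *
      (v.re / -(2 * (c' 2 * Real.sin (2 * φ)))) =
      -(BB κ C0 * aa κ 2 * Real.cos (2 * φ) * v.re / (2 * Real.sin (2 * φ))) := by
    field_simp
  rw [hR] at hfin
  have ha2 := hapos 2
  have hk : 0 ≤ (2 * Real.sin (2 * φ)) / (BB κ C0 * aa κ 2) := by positivity
  have h8 := mul_le_mul_of_nonneg_left hfin hk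
  have h9 : (2 * Real.sin (2 * φ)) / (BB κ C0 * aa κ 2) *
      -(BB κ C0 * aa κ 2 * Real.cos (2 * φ) * v.re / (2 * Real.sin (2 * φ))) =
      -(v.re * Real.cos (2 * φ)) := by
    field_simp
  have h10 : (2 * Real.sin (2 * φ)) / (BB κ C0 * aa κ 2) *
      (σ * (BB κ C0 * (aa κ m / m) * v.im)) =
      aa κ m / m / (aa κ 2 / 2) * v.im * (σ * Real.sin (2 * φ)) := by
    field_simp
  rw [h9, h10] at h8
  linarith

/-! ### symmetries of the slit function -/

theorem om_period {κ : ℝ} (S : SFull κ) (t : ℝ) (ht : t < 0)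
    (θ : ℝ) : S.om (t, θ + π) = S.om (t, θ) := by
  have hopen : IsOpen {z : ℝ × ℝ | z.1 < 0} := isOpen_lt continuous_fst continuous_const
  have hd : ∀ x : ℝ, HasDerivAt (fun x => S.om (t, x))
      (BB κ S.C0 * Real.exp (-(1 - κ) * t) * D1 S.u (t, x) - 1) x := by
    intro x
    have h1 : DifferentiableAt ℝ S.om (t, x) :=
      (S.sysN.2.1.contDiffAt (hopen.mem_nhds ht)).differentiableAt (by simp)
    have h2 := hasDerivAt_snd h1
    rw [S.sysN.2.2.1 (t, x) ht] at h2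
    exact h2
  have hper : ∀ x : ℝ, D1 S.u (t, x + π) = D1 S.u (t, x) := by
    intro x
    have h1 : (fun z : ℝ × ℝ => S.u (z + (0, π))) = S.u := by
      funext z
      obtain ⟨a, b⟩ := z
      simpa using S.per a b
    have h2 := fderiv_comp_add_right (𝕜 := ℝ) (f := S.u) (x := (t, x)) ((0, π) : ℝ × ℝ)
    rw [h1] at h2
    simp only [Prod.mk_add_mk, add_zero] at h2
    simp only [D1, h2]
  have hdG : ∀ x : ℝ, HasDerivAt (fun x => S.om (t, x + π) - S.om (t, x)) 0 x := by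
    intro x
    have h1 := ((hd (x + π)).comp_add_const x π).sub (hd x)
    rw [hper x, sub_self] at h1
    exact h1
  have hconst : ∀ x y : ℝ, (S.om (t, x + π) - S.om (t, x)) = (S.om (t, y + π) - S.om (t, y)) :=
    is_const_of_deriv_eq_zero (fun x => (hdG x).differentiableAt) (fun x => (hdG x).deriv)
  have h1 := hconst θ (-(π / 2))
  rw [show -(π / 2) + π = π / 2 by ring, S.om_odd t (π / 2) ht, S.om_half t] at h1
  linarith

theorem reduce_angle {κ : ℝ} (S : SFull κ) (θ : ℝ)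
    (hθ : Real.sin (2 * θ) ≠ 0) : ∃ φ σ : ℝ, 0 < φ ∧ φ < π / 2 ∧ σ ^ 2 = 1 ∧
      (∀ t < 0, S.u (t, θ) = S.u (t, φ)) ∧ (∀ t < 0, S.om (t, θ) = σ * S.om (t, φ)) ∧
      Real.cos (2 * θ) = Real.cos (2 * φ) ∧ Real.sin (2 * θ) = σ * Real.sin (2 * φ) := by
  -- the representative in `[0, π)`
  obtain ⟨j, ⟨hj0, hj1⟩, -⟩ := existsUnique_sub_zsmul_mem_Ico Real.pi_pos θ 0
  simp only [zero_add, zsmul_eq_mul] at hj0 hj1
  set θ₀ := θ - j * π with hθ₀
  have hu : ∀ t, S.u (t, θ) = S.u (t, θ₀) := by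
    intro t
    have h : Function.Periodic (fun x => S.u (t, x)) π := fun x => S.per t x
    exact (h.sub_int_mul_eq j).symm
  have ho : ∀ t < 0, S.om (t, θ) = S.om (t, θ₀) := by
    intro t ht
    have h : Function.Periodic (fun x => S.om (t, x)) π := fun x => om_period S t ht x
    exact (h.sub_int_mul_eq j).symm
  have hc : Real.cos (2 * θ) = Real.cos (2 * θ₀) := by
    rw [hθ₀, show 2 * (θ - j * π) = 2 * θ - j * (2 * π) by ring, Real.cos_sub_int_mul_two_pi]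
  have hs : Real.sin (2 * θ) = Real.sin (2 * θ₀) := by
    rw [hθ₀, show 2 * (θ - j * π) = 2 * θ - j * (2 * π) by ring, Real.sin_sub_int_mul_two_pi]
  have h0 : θ₀ ≠ 0 := by
    intro h
    rw [hs, h] at hθ
    simp at hθ
  have h2 : θ₀ ≠ π / 2 := by
    intro h
    rw [hs, h, show 2 * (π / 2) = π by ring] at hθ
    simp at hθ
  have hpos : 0 < θ₀ := lt_of_le_of_ne hj0 h0.symm
  rcases lt_or_gt_of_ne h2 with h | h
  · exact ⟨θ₀, 1, hpos, h, by norm_num, fun t _ => hu t, fun t ht => by rw [ho t ht, one_mul],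
      hc, by rw [hs, one_mul]⟩
  · refine ⟨π - θ₀, -1, by linarith, by linarith, by norm_num, fun t _ => ?_, fun t ht => ?_,
      ?_, ?_⟩
    · rw [hu t, show π - θ₀ = -θ₀ + π by ring, S.per, S.even]
    · rw [ho t ht, S.om_refl t θ₀ hpos hj1]
      ring
    · rw [hc, show 2 * (π - θ₀) = 2 * π - 2 * θ₀ by ring, Real.cos_two_pi_sub]
    · rw [hs, show 2 * (π - θ₀) = 2 * π - 2 * θ₀ by ring, Real.sin_two_pi_sub]
      ring

theorem u_tendsto_zero {κ C0 : ℝ} (hmono : StrictMono (aa κ)) (ha0 : aa κ 0 = 1 - κ)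
    (hκ1 : κ < 1) {u om : ℝ × ℝ → ℝ} {c : ℕ → ℂ} {τ₁ : ℝ} (h : FExp κ C0 u om c τ₁) (θ : ℝ) :
    Tendsto (fun τ => u (τ, θ)) atBot (𝓝 0) := by
  obtain ⟨hs, h0, -, hx⟩ := h
  have h1 := tail_lim0 (M := 0) hmono hs (g := fun _ n => (md c n θ).re)
    (s := fun τ => u (τ, θ) - C0 * Real.exp ((1 - κ) * τ)) ?_
  swap
  · filter_upwards [eventually_le_atBot τ₁] with τ hτ
    refine ⟨fun n => ?_, fun n hn => absurd hn (Nat.not_lt_zero n), (hx τ θ hτ).1⟩
    refine (Complex.abs_re_le_norm _).trans ((norm_md _ _ _).le.trans ?_)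
    have h2 : (1 : ℝ) ≤ ((n : ℝ) + 1) ^ 3 := by
      apply one_le_pow₀
      have : (0 : ℝ) ≤ n := Nat.cast_nonneg n
      linarith
    calc ‖c n‖ = 1 * ‖c n‖ := (one_mul _).symm
      _ ≤ _ := mul_le_mul_of_nonneg_right h2 (norm_nonneg _)
  have h2 : (md c 0 θ).re = 0 := by
    rw [md, h0]
    simp
  simp only [h2, sub_zero] at h1
  have hε : 0 < 1 - κ := by linarith
  have h3 : Tendsto (fun τ => Real.exp ((1 - κ) * τ)) atBot (𝓝 0) :=
    Real.tendsto_exp_atBot.comp (tendsto_id.const_mul_atBot hε)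
  have h4 := (h1.mul h3).add (h3.const_mul C0)
  simp only [mul_zero, add_zero] at h4
  refine h4.congr fun τ => ?_
  rw [ha0, mul_assoc, ← Real.exp_add]
  simp

/-! ### the packet -/

theorem pkA11c (h0 : GExpo) (h : GA0) (_h1 : GA1) : GA11c := by
  intro κ hκ hκ1 S D α cS cT τS τT m hα0 hα1 hS him hre hT hτT hPA hm heq θ hθ
  obtain ⟨e1, -, -, -, e2, -, e3, -⟩ := h0 κ hκ hκ1
  have hmono : StrictMono (aa κ) := strictMono_nat_of_lt_succ e2
  obtain ⟨-, -, h3, h4⟩ := h κ hκ hκ1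
  have ha0 : 0 ≤ aa κ 0 := by rw [e1]; linarith
  obtain ⟨φ, σ, hφ0, hφ1, hσ, hUθ, hOθ, hcos, hsin⟩ := reduce_angle S θ hθ
  -- lower the time of the slit expansion
  set τS' : ℝ := min τS (-1) with hτS'
  have hS' := FExp.mono hmono ha0 hS (min_le_left τS (-1))
  have hSC : IsOpen {z : ℝ × ℝ | z.1 < 0} := isOpen_lt continuous_fst continuous_const
  have hX := h4 S.C0 α S.u S.om cS τS' hα0 hα1 (fun τ x hτ => ?_) hS'
  swap
  · have : (τ, x) ∈ {z : ℝ × ℝ | z.1 < 0} := by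
      have : τ ≤ -1 := hτ.trans (min_le_right _ _)
      simp only [Set.mem_ofPred_eq]
      linarith
    exact (S.sysN.1.contDiffAt (hSC.mem_nhds this)).differentiableAt (by simp)
  have hcoef : (fun n => ((α * Real.exp (-(aa κ n * (Real.log α / (1 - κ)))) : ℝ) : ℂ) * cS n) =
      fun n => ((sg κ α cS n : ℝ) : ℂ) := by
    funext n
    apply Complex.ext
    · rw [Complex.re_ofReal_mul, Complex.ofReal_re, sg]
    · rw [Complex.im_ofReal_mul, him n, mul_zero, Complex.ofReal_im]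
  rw [hcoef] at hX
  -- a common time
  set L : ℝ := Real.log α / (1 - κ) with hL
  set τ₁ : ℝ := min (τS' + L) τT with hτ₁
  have hX1 := FExp.mono hmono ha0 hX (min_le_left (τS' + L) τT)
  have hT1 := FExp.mono hmono ha0 hT (min_le_right (τS' + L) τT)
  have hsh : ∀ τ < τ₁, shf κ α τ < 0 := by
    intro τ hτ
    have h5 : τ₁ ≤ τS' + L := min_le_left _ _
    have h6 : τS' ≤ -1 := min_le_right _ _
    unfold shf
    linarith
  have hsys := h3 S.C0 α S.u S.om {z : ℝ × ℝ | z.1 < 0} hα0 hSC S.sysN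
  have hsys1 : Sys κ S.C0 (fun z => α * S.u (shf κ α z.1, z.2))
      (fun z => S.om (shf κ α z.1, z.2)) {z | z.1 < τ₁} := by
    obtain ⟨s1, s2, s3, s4⟩ := hsys
    have hsub : {z : ℝ × ℝ | z.1 < τ₁} ⊆
        {z : ℝ × ℝ | (shf κ α z.1, z.2) ∈ {z : ℝ × ℝ | z.1 < 0}} := fun z hz => hsh z.1 hz
    exact ⟨s1.mono hsub, s2.mono hsub, fun z hz => s3 z (hsub hz), fun z hz => s4 z (hsub hz)⟩
  have hsg2 : 0 < sg κ α cS 2 := by
    unfold sg
    positivity
  refine core hκ hκ1 S.C0pos hmono e1 e3 hm hX1 hT1 hsys1 hsg2 heq hφ0 hφ1 hσ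
    (fun τ hτ => ?_) (fun τ hτ => ?_) hcos hsin ?_
  · simp only
    rw [hUθ _ (hsh τ hτ)]
  · exact hOθ _ (hsh τ hτ)
  · -- weak inclusion
    have hlim : Tendsto (fun τ => D.u (τ, θ)) atBot (𝓝 0) :=
      u_tendsto_zero hmono e1 hκ1 hT θ
    filter_upwards [hlim.eventually_lt_const hα0, eventually_le_atBot τT] with τ h5 h6
    obtain ⟨ϑ, a1, a2, a3, a4⟩ := hPA (τ, θ) (h6.trans (hτT θ)) h5
    refine ⟨ϑ, a1, a2, ?_, a4⟩
    simp only at a3 ⊢
    rw [a3]
    field_simp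

end Pool.Agent.Helper31.PCap
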